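import Pool.Agent.H960.IS.Stm

/-!
# Project IS (helper960): the FKG inequality for the Gibbs kernels
-/

set_option autoImplicit false

namespace Pool.Agent.H675.IS

open MeasureTheory Filter Topology Finset H960FV H960IS

theorem sp_super (a b c e : Bool) : sp a * sp b + sp c * sp e ≤
    sp (a && c) * sp (b && e) + sp (a || c) * sp (b || e) := by
  cases a <;> cases b <;> cases c <;> cases e <;> norm_num [sp]

section

variable {d : ℕ} (Λ : Finset (Z d)) (η : Z d → Bool)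

theorem gl_inf (a b : ↥Λ → Bool) (x : Z d) :
    gl Λ (a ⊓ b) η x = (gl Λ a η x && gl Λ b η x) := by
  unfold gl
  by_cases h : x ∈ Λ
  · rw [dif_pos h, dif_pos h, dif_pos h]
    rfl
  · rw [dif_neg h, dif_neg h, dif_neg h, Bool.and_self]

theorem gl_sup (a b : ↥Λ → Bool) (x : Z d) :
    gl Λ (a ⊔ b) η x = (gl Λ a η x || gl Λ b η x) := by
  unfold gl
  by_cases h : x ∈ Λ
  · rw [dif_pos h, dif_pos h, dif_pos h]
    rfl
  · rw [dif_neg h, dif_neg h, dif_neg h, Bool.or_self]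

theorem gl_mono {a b : ↥Λ → Bool} (hab : a ≤ b) : gl Λ a η ≤ gl Λ b η := by
  intro x
  unfold gl
  by_cases h : x ∈ Λ
  · rw [dif_pos h, dif_pos h]
    exact hab _
  · rw [dif_neg h, dif_neg h]

theorem En_super (a b : ↥Λ → Bool) : En Λ (gl Λ a η) + En Λ (gl Λ b η) ≤
    En Λ (gl Λ (a ⊓ b) η) + En Λ (gl Λ (a ⊔ b) η) := by
  unfold En
  rw [← sum_add_distrib, ← sum_add_distrib]
  refine sum_le_sum fun e _ => ?_
  rw [gl_inf, gl_inf, gl_sup, gl_sup]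
  exact sp_super _ _ _ _

end

/-- the FKG inequality -/
theorem fkg : S_fkg := by
  intro d β Λ η f g hβ hf hg
  obtain ⟨μ, hμ⟩ : ∃ μ : (↥Λ → Bool) → ℝ, μ = fun τ => Real.exp (β * En Λ (gl Λ τ η)) := ⟨_, rfl⟩
  obtain ⟨a, ha⟩ : ∃ a : ℝ, a = f (gl Λ ⊥ η) := ⟨_, rfl⟩
  obtain ⟨b, hb⟩ : ∃ b : ℝ, b = g (gl Λ ⊥ η) := ⟨_, rfl⟩
  obtain ⟨F, hF⟩ : ∃ F : (↥Λ → Bool) → ℝ, F = fun τ => f (gl Λ τ η) - a := ⟨_, rfl⟩
  obtain ⟨G, hG⟩ : ∃ G : (↥Λ → Bool) → ℝ, G = fun τ => g (gl Λ τ η) - b := ⟨_, rfl⟩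
  have hμ0 : 0 ≤ μ := by
    intro τ
    rw [hμ]
    exact (Real.exp_pos _).le
  have hF0 : 0 ≤ F := by
    intro τ
    rw [hF, ha]
    exact sub_nonneg.2 (hf (gl_mono Λ η bot_le))
  have hG0 : 0 ≤ G := by
    intro τ
    rw [hG, hb]
    exact sub_nonneg.2 (hg (gl_mono Λ η bot_le))
  have hFm : Monotone F := by
    intro τ τ' h
    rw [hF]
    exact sub_le_sub_right (hf (gl_mono Λ η h)) a
  have hGm : Monotone G := by
    intro τ τ' h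
    rw [hG]
    exact sub_le_sub_right (hg (gl_mono Λ η h)) b
  have hsup : ∀ x y, μ x * μ y ≤ μ (x ⊓ y) * μ (x ⊔ y) := by
    intro x y
    rw [hμ]
    simp only
    rw [← Real.exp_add, ← Real.exp_add, ← mul_add, ← mul_add]
    exact Real.exp_le_exp.2 (mul_le_mul_of_nonneg_left (En_super Λ η x y) hβ)
  have key := _root_.fkg F G μ hμ0 hF0 hG0 hFm hGm hsup
  obtain ⟨Z0, hZ0⟩ : ∃ Z0 : ℝ, Z0 = ∑ τ, μ τ := ⟨_, rfl⟩
  obtain ⟨A, hA⟩ : ∃ A : ℝ, A = ∑ τ, μ τ * f (gl Λ τ η) := ⟨_, rfl⟩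
  obtain ⟨B, hB⟩ : ∃ B : ℝ, B = ∑ τ, μ τ * g (gl Λ τ η) := ⟨_, rfl⟩
  obtain ⟨D, hD⟩ : ∃ D : ℝ, D = ∑ τ, μ τ * (f (gl Λ τ η) * g (gl Λ τ η)) := ⟨_, rfl⟩
  have e1 : ∑ τ, μ τ * F τ = A - a * Z0 := by
    rw [hA, hZ0, mul_sum, ← sum_sub_distrib]
    refine sum_congr rfl fun τ _ => ?_
    rw [hF]
    ring
  have e2 : ∑ τ, μ τ * G τ = B - b * Z0 := by
    rw [hB, hZ0, mul_sum, ← sum_sub_distrib]
    refine sum_congr rfl fun τ _ => ?_
    rw [hG]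
    ring
  have e3 : ∑ τ, μ τ * (F τ * G τ) = D - a * B - b * A + a * b * Z0 := by
    rw [hA, hB, hD, hZ0, mul_sum, mul_sum, mul_sum, ← sum_sub_distrib, ← sum_sub_distrib,
      ← sum_add_distrib]
    refine sum_congr rfl fun τ _ => ?_
    rw [hF, hG]
    ring
  rw [e1, e2, e3, ← hZ0] at key
  have hmain : A * B ≤ Z0 * D := by nlinarith
  have hZpos : 0 < Z0 := by
    rw [hZ0, hμ]
    exact sum_pos (fun τ _ => Real.exp_pos _) univ_nonempty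
  have k1 : Kop β Λ f η = A / Z0 := by
    unfold Kop Zn
    rw [hA, hZ0, hμ]
  have k2 : Kop β Λ g η = B / Z0 := by
    unfold Kop Zn
    rw [hB, hZ0, hμ]
  have k3 : Kop β Λ (fun σ => f σ * g σ) η = D / Z0 := by
    unfold Kop Zn
    rw [hD, hZ0, hμ]
  rw [k1, k2, k3, div_mul_div_comm, div_le_div_iff₀ (by positivity) hZpos]
  nlinarith

end Pool.Agent.H675.IS
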